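import Pool.Agent.Helper94.GA.Goals

/-! # Packet RK1 (3420) : rank one update -/

set_option autoImplicit false

namespace Pool.Agent.Helper86.GA

open Finset
open scoped ComplexOrder
open Pool.Agent.Helper94.GA

theorem RK1 : RK1_stmt := by
  intro e A hA z p hp
  have hinv : (A⁻¹).PosDef := hA.inv
  have hq : 0 ≤ star z ⬝ᵥ (A⁻¹.mulVec z) := hinv.posSemidef.dotProduct_mulVec_nonneg z
  have hq1 : 0 ≤ qa A z := by
    unfold qa
    exact (Complex.le_def.1 hq).1
  have hq2 : star z ⬝ᵥ (A⁻¹.mulVec z) = ((qa A z : ℝ) : ℂ) := by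
    apply Complex.ext
    · simp [qa]
    · have := (Complex.le_def.1 hq).2
      simpa using this.symm
  have hdet : 0 < A.det := hA.det_pos
  have hdet1 : A.det = ((A.det.re : ℝ) : ℂ) := by
    apply Complex.ext
    · simp
    · have := (Complex.lt_def.1 hdet).2
      simpa using this.symm
  have hu : IsUnit A.det := isUnit_iff_ne_zero.2 (ne_of_gt hdet)
  refine ⟨hq1, ?_, ?_⟩
  · apply hA.add_posSemidef
    apply Matrix.PosSemidef.smul (Matrix.posSemidef_vecMulVec_self_star z)
    exact_mod_cast hp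
  · have h1 : (p : ℂ) • Matrix.vecMulVec z (star z) =
        Matrix.replicateCol Unit ((p : ℂ) • z) * Matrix.replicateRow Unit (star z) := by
      ext i j
      simp [Matrix.vecMulVec, Matrix.mul_apply, mul_assoc]
    rw [h1, Matrix.det_add_replicateCol_mul_replicateRow hu]
    have h2 : Matrix.replicateRow Unit (star z) * A⁻¹ * Matrix.replicateCol Unit ((p : ℂ) • z) =
        Matrix.of (fun _ _ => (p : ℂ) * (qa A z : ℂ)) := by
      ext i j
      rw [Matrix.of_apply, ← hq2]
      simp only [Matrix.mul_apply, Matrix.replicateRow_apply, Matrix.replicateCol_apply,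
        dotProduct, Matrix.mulVec, Pi.smul_apply, smul_eq_mul]
      simp only [Finset.sum_mul, Finset.mul_sum]
      rw [Finset.sum_comm]
      refine Finset.sum_congr rfl fun x _ => Finset.sum_congr rfl fun y _ => ?_
      ring
    rw [h2]
    have h3 : Matrix.det (1 + (Matrix.of (fun _ _ => (p : ℂ) * (qa A z : ℂ)) :
        Matrix Unit Unit ℂ)) = 1 + (p : ℂ) * (qa A z : ℂ) := by
      rw [Matrix.det_unique]
      simp
    rw [h3, hdet1]
    have h4 : ((A.det.re : ℝ) : ℂ) * (1 + (p : ℂ) * (qa A z : ℂ)) =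
        ((A.det.re * (1 + p * qa A z) : ℝ) : ℂ) := by push_cast; ring
    rw [h4, Complex.ofReal_re, Complex.ofReal_re]

end Pool.Agent.Helper86.GA
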